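import Pool.Agent.Helper824_ind.Main

set_option autoImplicit false

/-!
# Compositions of indestructible Blaschke products are indestructible

Definitions are in `Pool.Agent.Helper824_ind.Defs`.

Proof. Let `B`, `C` be indestructible and `T` an automorphism of the disc. Then `T ∘ B` is a
Blaschke product with zeros `b_j`, so that `|T (B (w))|` is the product of the pseudohyperbolic
distances of `w` and `b_j`. Put `w = C (z)`. Each factor is the modulus of a shift of `C`, hence the
modulus of a Blaschke product. So `|T (B (C (z)))|` is a double product of moduli of Blaschke
factors, taken at the zeros of all the shifts; at a point where it does not vanish this gives the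
Blaschke condition for the union of the zeros, and two holomorphic functions with the same modulus
agree up to a unimodular constant.
-/

namespace Pool.Agent.Results.MP_4d1c53_an.CompIndestructible

open Pool.Agent.Helper824_ind

/-- If `B` and `C` are indestructible Blaschke products, then so is `B ∘ C`. -/
theorem result (B C : ℂ → ℂ) (hB : Indestructible B) (hC : Indestructible C) :
    Indestructible (B ∘ C) :=
  main hB hC

end Pool.Agent.Results.MP_4d1c53_an.CompIndestructible
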